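import Pool.Agent.Q106.MumD

/-!
# MP_9969af_al, Q1: a Mumford group that is not a generalized Heisenberg group

For an odd prime `p` let `K_p` be the finite abelian `p`-group with a Lagrangian subgroup
`L_p ≅ ℤ/p^6 ⊕ ℤ/p^4 ⊕ ℤ/p^2` and quotient its dual, glued by the alternating class
`p^2 e₁∧e₂ + p e₁∧e₃ + e₂∧e₃`.  The Lagrangian `L_p` is such that no polarisation
`K_p = B ⊕ C` has a projection that maps `L_p` to itself.  The restricted product `K` of the
`(K_p, L_p)` over all odd primes therefore is a non-standard symplectic self-duality; as `2` is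
invertible on `K`, its symplectic form is the square of a bicharacter `c`, and the central
extension `𝕋 × K` with the cocycle `c` is the required group.
-/

set_option autoImplicit false

open commutatorElement Pool.Agent.Q106.Mum

universe u

namespace Pool.Agent.Results.MP_9969af_al.MumfordGroup

/-- `G` is nilpotent of class at most two, its centre is isomorphic to the circle by some `ζ`,
and the Mumford map `M(x̄)(ȳ) = ζ [x, y]` is an isomorphism of topological groups from
`G / Z(G)` onto its Pontryagin dual. -/
def IsMumford (G : Type) [Group G] [TopologicalSpace G] [IsTopologicalGroup G] : Prop :=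
  ∃ (h2 : ∀ x y : G, ⁅x, y⁆ ∈ Subgroup.center G) (ζ : Subgroup.center G ≃ₜ* Circle)
    (M : (G ⧸ Subgroup.center G) ≃ₜ* PontryaginDual (G ⧸ Subgroup.center G)),
    ∀ x y : G, M (x : G ⧸ Subgroup.center G) (y : G ⧸ Subgroup.center G) =
      ζ ⟨⁅x, y⁆, h2 x y⟩

/-- The product topology on the generalized Heisenberg group `Heis ω = A × E × F`. -/
instance heisTopology {E F A : Type u} [AddCommGroup E] [AddCommGroup F] [AddCommGroup A]
    [TopologicalSpace E] [TopologicalSpace F] [TopologicalSpace A] (ω : E →+ F →+ A) :
    TopologicalSpace (Heis ω) :=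
  TopologicalSpace.induced (fun h : Heis ω => (h.a, h.b, h.c))
    (inferInstance : TopologicalSpace (A × E × F))

/-- `G` is isomorphic, as a topological group, to `H(ω) = A × E × F` with the product
`(a,b,c)(a',b',c') = (a + a' + ω(b,c'), b + b', c + c')` for some topological abelian groups
`E, F, A` and some continuous bilinear `ω : E × F → A`. -/
def IsGenHeisenberg (G : Type) [Group G] [TopologicalSpace G] : Prop :=
  ∃ (E F A : Type u) (_ : AddCommGroup E) (_ : AddCommGroup F) (_ : AddCommGroup A)
    (_ : TopologicalSpace E) (_ : TopologicalSpace F) (_ : TopologicalSpace A)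
    (_ : IsTopologicalAddGroup E) (_ : IsTopologicalAddGroup F) (_ : IsTopologicalAddGroup A)
    (ω : E →+ F →+ A), Continuous (fun z : E × F => ω z.1 z.2) ∧ Nonempty (G ≃ₜ* Heis ω)

/-- **There is a locally compact Mumford group with centre the circle that is not a generalized
Heisenberg group.** -/
theorem result : ∃ (G : Type) (_ : Group G) (_ : TopologicalSpace G) (_ : IsTopologicalGroup G),
    T2Space G ∧ LocallyCompactSpace G ∧ IsMumford G ∧ ¬ IsGenHeisenberg.{u} G := by
  refine ⟨Gp, inferInstance, inferInstance, inferInstance, inferInstance, inferInstance, ?_, ?_⟩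
  · have h2 : ∀ x y : Gp, ⁅x, y⁆ ∈ Subgroup.center Gp := by
      intro x y
      rw [commutator_eq, mem_center_iff']
      rfl
    refine ⟨h2, zet, ME, ?_⟩
    intro x y
    rw [ME_apply, kb_mk, kb_mk]
    show _ = (⁅x, y⁆ : Gp).t
    rw [commutator_eq]
    rfl
  · rintro ⟨E, F, A, _, _, _, _, _, _, _, _, _, ω, _, ⟨Θ⟩⟩
    have hcont : Continuous (pE : Heis ω → Heis ω) := by
      apply continuous_induced_rng.2
      have h1 : Continuous fun h : Heis ω => (h.a, h.b, h.c) := continuous_induced_dom
      have h2 : Continuous fun h : Heis ω => h.b := (continuous_fst.comp continuous_snd).comp h1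
      exact (continuous_const (y := (0 : A))).prodMk (h2.prodMk (continuous_const (y := (0 : F))))
    exact not_heis hcont Θ

end Pool.Agent.Results.MP_9969af_al.MumfordGroup
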